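import Pool.Agent.Y840.CB.Count
import Pool.Agent.H510R2.Div

/-!
# Few fractions have large lacunary sums
-/

set_option autoImplicit false

namespace Pool.Agent.Y840.CB

open Finset Real
open scoped Classical

theorem asym (b F : ℕ) (hb : 2 ≤ b) (η : ℝ) (hη : 0 < η) (hη1 : η ≤ 1) (ε : ℝ) (hε : 0 < ε) :
    ∃ β : ℕ, 1 ≤ β ∧ ∃ κ : ℝ, 0 < κ ∧ ∃ C : ℝ, 0 < C ∧ ∀ j : ℕ,
      (N b (β * (⌊κ * j⌋₊ + 1)) F η (b ^ j) : ℝ) ≤ C * (b : ℝ) ^ ((1 + ε) * (j : ℝ)) := by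
  -- parameters
  have hb2 : (2 : ℝ) ≤ b := by exact_mod_cast hb
  have h3 : (0 : ℝ) < b := by linarith
  have h31 : (1 : ℝ) ≤ b := by linarith
  have hl3 : 0 < Real.log b := Real.log_pos (by linarith)
  obtain ⟨G, hG⟩ : ∃ G : ℝ, G = 4 / η ^ 2 := ⟨_, rfl⟩
  have hG1 : 1 < G := by
    rw [hG, lt_div_iff₀ (by positivity)]
    nlinarith
  have hG0 : 0 < G := by linarith
  have hlG : 0 < Real.log G := Real.log_pos hG1
  set κ : ℝ := ε * Real.log b / (2 * Real.log G) with hκ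
  have hκpos : 0 < κ := by positivity
  have h49 : G ^ κ = (b : ℝ) ^ (ε / 2) := by
    rw [Real.rpow_def_of_pos hG0, Real.rpow_def_of_pos h3]
    congr 1
    rw [hκ]; field_simp
  obtain ⟨β, hβ⟩ := exists_nat_ge (2 * Real.exp 1 * (b : ℝ) ^ (1 / κ) + 1)
  have hβ1 : 1 ≤ β := by
    have : (1 : ℝ) ≤ β := by
      have : 0 < 2 * Real.exp 1 * (b : ℝ) ^ (1 / κ) := by positivity
      linarith
    exact_mod_cast this
  have hβpos : (0 : ℝ) < β := by exact_mod_cast hβ1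
  have hratio : 2 * Real.exp 1 / β ≤ (b : ℝ) ^ (-(1 / κ)) := by
    rw [div_le_iff₀ hβpos, Real.rpow_neg h3.le]
    have hp : 0 < (b : ℝ) ^ (1 / κ) := by positivity
    rw [inv_mul_eq_div, le_div_iff₀ hp]
    linarith
  set s : ℝ := (F : ℝ) + 2 + β with hs
  have hspos : 0 < s := by positivity
  set δ : ℝ := ε / (2 * s * κ) with hδ
  have hδpos : 0 < δ := by positivity
  obtain ⟨D, hD, hdiv⟩ := Pool.Agent.H510R2.divisor_bound δ hδpos
  set C' : ℝ := D * (b : ℝ) ^ (δ * s) with hC'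
  have hC'pos : 0 < C' := by positivity
  refine ⟨β, hβ1, κ, hκpos, 2 * (F + 1) * G * (2 + C'), by positivity, ?_⟩
  intro j
  set k : ℕ := ⌊κ * j⌋₊ + 1 with hk
  have hk1 : 1 ≤ k := by omega
  have hk_ge : κ * j ≤ k := by
    have := Nat.lt_floor_add_one (κ * j)
    rw [hk]; push_cast; linarith
  have hk_le : (k : ℝ) ≤ κ * j + 1 := by
    have := Nat.floor_le (by positivity : 0 ≤ κ * (j : ℝ))
    rw [hk]; push_cast; linarith
  -- divisor bound
  set T : ℝ := D * (b : ℝ) ^ (δ * (s * k)) with hT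
  have hTpos : 0 < T := by positivity
  have hTn : ∀ n : ℕ, 1 ≤ n → n ≤ F * (2 * k * b ^ (β * k)) → (n.divisors.card : ℝ) ≤ T := by
    intro n hn1 hn2
    refine (hdiv n hn1).trans ?_
    rw [hT]
    apply mul_le_mul_of_nonneg_left _ hD.le
    have h6k : F * (2 * k * b ^ (β * k)) ≤ b ^ ((F + 2 + β) * k) := by
      have a1 : k ≤ b ^ k := (Nat.lt_pow_self (by omega)).le
      have a2 : F ≤ b ^ (F * k) := by
        calc F ≤ b ^ F := (Nat.lt_pow_self (by omega)).le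
          _ ≤ b ^ (F * k) := Nat.pow_le_pow_right (by omega) (Nat.le_mul_of_pos_right _ (by omega))
      have a3 : 2 ≤ b ^ k := by
        calc 2 ≤ b := hb
          _ = b ^ 1 := (pow_one b).symm
          _ ≤ b ^ k := Nat.pow_le_pow_right (by omega) hk1
      calc F * (2 * k * b ^ (β * k)) ≤ b ^ (F * k) * (b ^ k * b ^ k * b ^ (β * k)) := by gcongr
        _ = b ^ ((F + 2 + β) * k) := by
            rw [← pow_add, ← pow_add, ← pow_add]
            congr 1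
            ring
    have hn3 : (n : ℝ) ≤ (b : ℝ) ^ ((F + 2 + β) * k) := by exact_mod_cast hn2.trans h6k
    calc (n : ℝ) ^ δ ≤ ((b : ℝ) ^ ((F + 2 + β) * k)) ^ δ :=
          Real.rpow_le_rpow (by positivity) hn3 hδpos.le
      _ = (b : ℝ) ^ (δ * (s * k)) := by
          rw [← Real.rpow_natCast, ← Real.rpow_mul h3.le]
          congr 1
          rw [hs]
          push_cast
          ring
  have hmain := main_bound b (b ^ j) β k F hb hβ1 hk1 η hη T hTpos.le hTn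
  rw [← hG] at hmain
  -- estimate each factor
  have f1 : G ^ k ≤ G * (b : ℝ) ^ (ε / 2 * j) := by
    calc G ^ k = G ^ (k : ℝ) := (Real.rpow_natCast _ _).symm
      _ ≤ G ^ (κ * j + 1) := Real.rpow_le_rpow_of_exponent_le hG1.le hk_le
      _ = G * (b : ℝ) ^ (ε / 2 * j) := by
          rw [Real.rpow_add hG0, Real.rpow_one, Real.rpow_mul hG0.le, h49,
            ← Real.rpow_mul h3.le]
          ring
  have f2 : (2 * Real.exp 1 / β : ℝ) ^ k ≤ (b : ℝ) ^ (-(j : ℝ)) := by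
    calc (2 * Real.exp 1 / β : ℝ) ^ k ≤ ((b : ℝ) ^ (-(1 / κ))) ^ k :=
          pow_le_pow_left₀ (by positivity) hratio _
      _ = (b : ℝ) ^ (-(1 / κ) * k) := by
          rw [← Real.rpow_natCast, ← Real.rpow_mul h3.le]
      _ ≤ (b : ℝ) ^ (-(j : ℝ)) := by
          apply Real.rpow_le_rpow_of_exponent_le h31
          have : (j : ℝ) ≤ 1 / κ * k := by
            rw [div_mul_eq_mul_div, one_mul, le_div_iff₀ hκpos]
            linarith
          linarith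
  have f3 : T ≤ C' * (b : ℝ) ^ (ε / 2 * j) := by
    rw [hT, hC', mul_assoc]
    apply mul_le_mul_of_nonneg_left _ hD.le
    rw [← Real.rpow_add h3]
    apply Real.rpow_le_rpow_of_exponent_le h31
    have e1 : δ * s * κ = ε / 2 := by
      rw [hδ]; field_simp
    have e2 : δ * (s * k) ≤ δ * s * (κ * j + 1) := by
      rw [← mul_assoc]
      exact mul_le_mul_of_nonneg_left hk_le (by positivity)
    have e3 : δ * s * (κ * j + 1) = δ * s + ε / 2 * j := by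
      rw [← e1]; ring
    linarith
  have f4 : ((b ^ j : ℕ) : ℝ) = (b : ℝ) ^ (j : ℝ) := by push_cast; exact (Real.rpow_natCast _ _).symm
  have f5 : 2 * ((b ^ j : ℕ) : ℝ) * (2 * Real.exp 1 / β : ℝ) ^ k ≤ 2 := by
    rw [f4]
    calc 2 * (b : ℝ) ^ (j : ℝ) * (2 * Real.exp 1 / β : ℝ) ^ k
        ≤ 2 * (b : ℝ) ^ (j : ℝ) * (b : ℝ) ^ (-(j : ℝ)) :=
          mul_le_mul_of_nonneg_left f2 (by positivity)
      _ = 2 := by rw [mul_assoc, ← Real.rpow_add h3]; simp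
  have g1 : (1 : ℝ) ≤ (b : ℝ) ^ (ε / 2 * j) := by
    apply Real.one_le_rpow h31; positivity
  have f6 : 2 * ((b ^ j : ℕ) : ℝ) * (2 * Real.exp 1 / β : ℝ) ^ k + T ≤
      (2 + C') * (b : ℝ) ^ (ε / 2 * j) := by
    nlinarith [f5, f3, g1]
  calc (N b (β * k) F η (b ^ j) : ℝ)
      ≤ 2 * F * ((b ^ j : ℕ) : ℝ) * G ^ k *
          (2 * ((b ^ j : ℕ) : ℝ) * (2 * Real.exp 1 / β : ℝ) ^ k + T) := hmain
    _ ≤ 2 * (F + 1) * ((b ^ j : ℕ) : ℝ) * (G * (b : ℝ) ^ (ε / 2 * j)) *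
          ((2 + C') * (b : ℝ) ^ (ε / 2 * j)) := by
        apply mul_le_mul
        · apply mul_le_mul _ f1 (by positivity) (by positivity)
          have : (0 : ℝ) ≤ ((b ^ j : ℕ) : ℝ) := by positivity
          nlinarith
        · exact f6
        · positivity
        · positivity
    _ = 2 * (F + 1) * G * (2 + C') * (b : ℝ) ^ ((1 + ε) * (j : ℝ)) := by
        rw [f4]
        have : (1 + ε) * (j : ℝ) = j + (ε / 2 * j + ε / 2 * j) := by ring
        rw [this, Real.rpow_add h3, Real.rpow_add h3]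
        ring

lemma N_mono (b I F : ℕ) (η : ℝ) {M M' : ℕ} (h : M ≤ M') : N b I F η M ≤ N b I F η M' := by
  unfold N
  exact Finset.sum_le_sum_of_subset (Icc_subset_Icc le_rfl h)

/-- **Few fractions have large lacunary sums.** -/
theorem few (b F : ℕ) (hb : 2 ≤ b) (η : ℝ) (hη : 0 < η) (ε : ℝ) (hε : 0 < ε) :
    ∃ A : ℕ, ∃ C : ℝ, 0 < C ∧ ∀ Q : ℕ, 1 ≤ Q → ∃ I : ℕ, 1 ≤ I ∧ I ≤ A * (Nat.log b Q + 1) ∧
      (N b I F η Q : ℝ) ≤ C * (Q : ℝ) ^ (1 + ε) := by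
  obtain ⟨β, hβ, κ, hκ, C, hC, H⟩ := asym b F hb (min η 1) (by positivity) (min_le_right _ _) ε hε
  have hb0 : (0 : ℝ) < b := by positivity
  refine ⟨β * (⌈κ⌉₊ + 1), C * (b : ℝ) ^ (1 + ε), by positivity, fun Q hQ => ?_⟩
  obtain ⟨j, hj⟩ : ∃ j : ℕ, j = Nat.log b Q + 1 := ⟨_, rfl⟩
  refine ⟨β * (⌊κ * j⌋₊ + 1), Nat.mul_pos hβ (Nat.succ_pos _), ?_, ?_⟩
  · rw [← hj, mul_assoc]
    apply Nat.mul_le_mul_left
    have h1 : ⌊κ * j⌋₊ ≤ ⌈κ⌉₊ * j := by
      apply Nat.floor_le_of_le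
      push_cast
      exact mul_le_mul_of_nonneg_right (Nat.le_ceil κ) (Nat.cast_nonneg _)
    have h2 : 1 ≤ j := by omega
    calc ⌊κ * j⌋₊ + 1 ≤ ⌈κ⌉₊ * j + j := by omega
      _ = (⌈κ⌉₊ + 1) * j := by ring
  · have hQj : Q ≤ b ^ j := by
      rw [hj]
      exact (Nat.lt_pow_succ_log_self (by omega) Q).le
    have hjQ : (b : ℝ) ^ (j : ℝ) ≤ b * Q := by
      rw [hj, Real.rpow_natCast, pow_succ, mul_comm]
      apply mul_le_mul_of_nonneg_left _ hb0.le
      exact_mod_cast Nat.pow_log_le_self b (by omega)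
    have h1 : (N b (β * (⌊κ * j⌋₊ + 1)) F η Q : ℝ) ≤ N b (β * (⌊κ * j⌋₊ + 1)) F (min η 1) (b ^ j) := by
      have h2 := N_mono b (β * (⌊κ * j⌋₊ + 1)) F η hQj
      have h3 : N b (β * (⌊κ * j⌋₊ + 1)) F η (b ^ j) ≤ N b (β * (⌊κ * j⌋₊ + 1)) F (min η 1) (b ^ j) := by
        unfold N
        apply Finset.sum_le_sum
        intro q _
        apply Finset.card_le_card
        intro p hp
        rw [mem_filter] at hp ⊢
        refine ⟨hp.1, ?_⟩
        obtain ⟨f, hf1, hf2⟩ := hp.2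
        refine ⟨f, hf1, le_trans ?_ hf2⟩
        exact mul_le_mul_of_nonneg_right (min_le_left _ _) (Nat.cast_nonneg _)
      exact_mod_cast h2.trans h3
    refine h1.trans ((H j).trans ?_)
    rw [mul_assoc]
    apply mul_le_mul_of_nonneg_left _ hC.le
    have h4 : (b : ℝ) ^ ((1 + ε) * (j : ℝ)) = ((b : ℝ) ^ (j : ℝ)) ^ (1 + ε) := by
      rw [← Real.rpow_mul hb0.le]
      congr 1
      ring
    rw [h4, ← Real.mul_rpow hb0.le (Nat.cast_nonneg _)]
    exact Real.rpow_le_rpow (by positivity) hjQ (by positivity)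

end Pool.Agent.Y840.CB
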