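import Pool.Agent.Y840.CB.Asym

/-!
# Orbits that stay away from a point have a large exponential sum
-/

set_option autoImplicit false

namespace Pool.Agent.Y840.CB

open Finset Real Filter
open Pool.Agent.W51.CR (e e_add e_zero e_sum e_int cos_eq_e char_sum cos_int_shift)

lemma e_neg (t : ℝ) : e (-t) = (starRingEnd ℂ) (e t) := by
  apply Complex.ext
  · rw [Complex.conj_re, re_e, re_e, show 2 * π * -t = -(2 * π * t) by ring, Real.cos_neg]
  · rw [Complex.conj_im, im_e, im_e, show 2 * π * (-t + -1 / 4) = -(2 * π * (t + -1 / 4)) - π by ring,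
      Real.cos_sub_pi, Real.cos_neg]

lemma norm_E_neg (b I : ℕ) (x : ℝ) : ‖E b I (-x)‖ = ‖E b I x‖ := by
  have h : E b I (-x) = (starRingEnd ℂ) (E b I x) := by
    unfold E
    rw [map_sum]
    apply Finset.sum_congr rfl
    intro i _
    rw [← e_neg]
    congr 1
    ring
  rw [h, RCLike.norm_conj]

lemma e_nsmul (k : ℕ) (t : ℝ) : e t ^ k = e (k * t) := by
  induction k with
  | zero => simp [e_zero]
  | succ k ih =>
    rw [pow_succ, ih, ← e_add]
    congr 1
    push_cast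
    ring

/-- the powers of the cosine -/
lemma cos_pow (n : ℕ) (z : ℝ) : ((Real.cos (π * z) ^ (2 * n) : ℝ) : ℂ) =
    ∑ k ∈ range (2 * n + 1), (((2 * n).choose k : ℂ) / 4 ^ n) * e (((k : ℝ) - n) * z) := by
  have h1 : ((Real.cos (π * z) : ℝ) : ℂ) = (e (z / 2) + e (-(z / 2))) / 2 := by
    rw [← cos_eq_e]
    congr 2
    ring
  rw [Complex.ofReal_pow, h1, div_pow, add_pow, Finset.sum_div]
  apply Finset.sum_congr rfl
  intro k hk
  rw [mem_range] at hk
  rw [e_nsmul, e_nsmul, ← e_add]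
  have h2 : (k : ℝ) * (z / 2) + ((2 * n - k : ℕ) : ℝ) * -(z / 2) = ((k : ℝ) - n) * z := by
    rw [Nat.cast_sub (by omega)]
    push_cast
    ring
  rw [h2]
  have h3 : (2 : ℂ) ^ (2 * n) = 4 ^ n := by
    rw [pow_mul]
    norm_num
  rw [h3]
  ring

/-- the distance to the integers -/
lemma cos_sq_le {δ z : ℝ} (hδ : 0 ≤ δ) (h : ∀ l : ℤ, δ ≤ |z - l|) :
    Real.cos (π * z) ^ 2 ≤ Real.cos (π * δ) ^ 2 := by
  have hr : |z - round z| ≤ 1 / 2 := abs_sub_round z
  have hd : δ ≤ |z - round z| := h _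
  have h1 : Real.cos (π * z) ^ 2 = Real.cos (π * |z - round z|) ^ 2 := by
    have h2 : Real.cos (π * |z - round z|) = Real.cos (π * (z - round z)) := by
      rw [← abs_of_pos Real.pi_pos, ← abs_mul, Real.cos_abs, abs_of_pos Real.pi_pos]
    rw [h2, show π * (z - round z) = π * z - (round z : ℤ) * π by ring, Real.cos_sub_int_mul_pi]
    have h4 : ((-1 : ℝ) ^ (round z)) ^ 2 = 1 := by
      rcases Int.even_or_odd (round z) with h5 | h5
      · rw [h5.neg_one_zpow]
        norm_num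
      · rw [h5.neg_one_zpow]
        norm_num
    rw [mul_pow, h4, one_mul]
  rw [h1]
  have hpi := Real.pi_pos
  have h3 : Real.cos (π * |z - round z|) ≤ Real.cos (π * δ) := by
    apply Real.cos_le_cos_of_nonneg_of_le_pi
    · positivity
    · nlinarith
    · exact mul_le_mul_of_nonneg_left hd hpi.le
  have h4 : 0 ≤ Real.cos (π * |z - round z|) := by
    apply Real.cos_nonneg_of_mem_Icc
    constructor
    · have : 0 ≤ π * |z - round z| := by positivity
      linarith
    · nlinarith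
  exact pow_le_pow_left₀ h4 h3 2

/-- **An orbit that avoids an arc has a large exponential sum.** -/
theorem avoid (δ : ℝ) (hδ : 0 < δ) : ∃ n : ℕ, ∃ η : ℝ, 0 < η ∧ ∀ (b I : ℕ) (m x : ℝ), 1 ≤ I →
    (∀ i < I, ∀ l : ℤ, δ ≤ |(b : ℝ) ^ i * x - m - l|) → Bad b I n η x := by
  obtain ⟨d, hd0, hdδ, hd1⟩ : ∃ d : ℝ, 0 < d ∧ d ≤ δ ∧ d ≤ 1 / 2 :=
    ⟨min δ (1 / 2), by positivity, min_le_left _ _, min_le_right _ _⟩
  obtain ⟨ρ, hρ⟩ : ∃ ρ : ℝ, ρ = Real.cos (π * d) ^ 2 := ⟨_, rfl⟩
  have hpi := Real.pi_pos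
  have hρ0 : 0 ≤ ρ := by rw [hρ]; positivity
  have hρ1 : ρ < 1 := by
    have h1 : Real.cos (π * d) < 1 := by
      rw [← Real.cos_zero]
      apply Real.cos_lt_cos_of_nonneg_of_le_pi le_rfl
      · nlinarith
      · positivity
    have h2 : 0 ≤ Real.cos (π * d) := by
      apply Real.cos_nonneg_of_mem_Icc
      constructor
      · have : 0 ≤ π * d := by positivity
        linarith
      · nlinarith
    rw [hρ]
    nlinarith
  obtain ⟨n, hn1, hn⟩ : ∃ n : ℕ, 1 ≤ n ∧ 4 * (n * ρ ^ n) ≤ 1 := by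
    have h1 : Tendsto (fun n : ℕ => 4 * ((n : ℝ) * ρ ^ n)) atTop (nhds (4 * 0)) :=
      (tendsto_self_mul_const_pow_of_lt_one hρ0 hρ1).const_mul 4
    rw [mul_zero] at h1
    have h2 := (h1.eventually (gt_mem_nhds (by norm_num : (0 : ℝ) < 1))).and (eventually_ge_atTop 1)
    obtain ⟨n, hn, hn1⟩ := h2.exists
    exact ⟨n, hn1, hn.le⟩
  have hnR : (1 : ℝ) ≤ n := by exact_mod_cast hn1
  obtain ⟨μ, hμ⟩ : ∃ μ : ℝ, μ = ((2 * n).choose n : ℝ) / 4 ^ n := ⟨_, rfl⟩
  have hμn : 1 / (2 * n) ≤ μ := by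
    have h1 : (4 : ℝ) ^ n ≤ 2 * n * ((2 * n).choose n : ℝ) := by
      exact_mod_cast Nat.four_pow_le_two_mul_self_mul_centralBinom n (by omega)
    rw [hμ, div_le_div_iff₀ (by positivity) (by positivity)]
    linarith
  have hμ0 : 0 < μ := lt_of_lt_of_le (by positivity) hμn
  have hρμ : ρ ^ n ≤ μ / 2 := by
    have h1 : ρ ^ n ≤ 1 / (4 * n) := by
      rw [le_div_iff₀ (by positivity)]
      linarith
    have h2 : 1 / (4 * (n : ℝ)) = 1 / (2 * n) / 2 := by
      field_simp
      ring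
    linarith
  refine ⟨n, μ / 2, by positivity, fun b I m x hI hav => ?_⟩
  have hIR : (1 : ℝ) ≤ I := by exact_mod_cast hI
  by_contra hbad
  unfold Bad at hbad
  push Not at hbad
  -- the upper bound
  have hup : ∑ i ∈ range I, Real.cos (π * ((b : ℝ) ^ i * x - m)) ^ (2 * n) ≤ I * ρ ^ n := by
    calc ∑ i ∈ range I, Real.cos (π * ((b : ℝ) ^ i * x - m)) ^ (2 * n)
        ≤ ∑ i ∈ range I, ρ ^ n := by
          apply Finset.sum_le_sum
          intro i hi
          rw [mem_range] at hi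
          rw [pow_mul, hρ]
          apply pow_le_pow_left₀ (by positivity)
          apply cos_sq_le hd0.le
          intro l
          exact hdδ.trans (hav i hi l)
      _ = I * ρ ^ n := by simp
  -- the expansion
  have hexp : ((∑ i ∈ range I, Real.cos (π * ((b : ℝ) ^ i * x - m)) ^ (2 * n) : ℝ) : ℂ) =
      ∑ k ∈ range (2 * n + 1), (((2 * n).choose k : ℂ) / 4 ^ n) *
        (e (-(((k : ℝ) - n) * m)) * E b I (((k : ℝ) - n) * x)) := by
    rw [Complex.ofReal_sum]
    have h1 : ∀ i ∈ range I, ((Real.cos (π * ((b : ℝ) ^ i * x - m)) ^ (2 * n) : ℝ) : ℂ) =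
        ∑ k ∈ range (2 * n + 1), (((2 * n).choose k : ℂ) / 4 ^ n) *
          (e (-(((k : ℝ) - n) * m)) * e ((b : ℝ) ^ i * (((k : ℝ) - n) * x))) := by
      intro i _
      rw [cos_pow]
      apply Finset.sum_congr rfl
      intro k _
      rw [← e_add]
      congr 2
      ring
    rw [Finset.sum_congr rfl h1, Finset.sum_comm]
    apply Finset.sum_congr rfl
    intro k _
    rw [← Finset.mul_sum]
    unfold E
    rw [← Finset.mul_sum]
  have hmem : n ∈ range (2 * n + 1) := by rw [mem_range]; omega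
  rw [← Finset.add_sum_erase _ _ hmem] at hexp
  have hmid : (((2 * n).choose n : ℂ) / 4 ^ n) *
      (e (-(((n : ℝ) - n) * m)) * E b I (((n : ℝ) - n) * x)) = ((μ * I : ℝ) : ℂ) := by
    rw [sub_self, zero_mul, zero_mul, neg_zero, e_zero, one_mul]
    unfold E
    simp only [mul_zero, e_zero]
    rw [hμ]
    push_cast
    simp
  rw [hmid] at hexp
  have hrest : ‖∑ k ∈ (range (2 * n + 1)).erase n, (((2 * n).choose k : ℂ) / 4 ^ n) *
        (e (-(((k : ℝ) - n) * m)) * E b I (((k : ℝ) - n) * x))‖ ≤ (1 - μ) * (μ / 2 * I) := by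
    refine (norm_sum_le _ _).trans ?_
    have h1 : ∀ k ∈ (range (2 * n + 1)).erase n, ‖(((2 * n).choose k : ℂ) / 4 ^ n) *
        (e (-(((k : ℝ) - n) * m)) * E b I (((k : ℝ) - n) * x))‖ ≤
        ((2 * n).choose k : ℝ) / 4 ^ n * (μ / 2 * I) := by
      intro k hk
      rw [mem_erase, mem_range] at hk
      rw [norm_mul, norm_mul, norm_e, one_mul]
      have h2 : ‖(((2 * n).choose k : ℂ) / 4 ^ n)‖ = ((2 * n).choose k : ℝ) / 4 ^ n := by
        rw [norm_div, Complex.norm_natCast, norm_pow]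
        norm_num
      rw [h2]
      apply mul_le_mul_of_nonneg_left _ (by positivity)
      rcases lt_or_gt_of_ne hk.1 with h3 | h3
      · have h4 := hbad (n - k) (by rw [mem_Icc]; omega)
        rw [Nat.cast_sub h3.le] at h4
        rw [show ((k : ℝ) - n) * x = -(((n : ℝ) - k) * x) by ring, norm_E_neg]
        exact h4.le
      · have h4 := hbad (k - n) (by rw [mem_Icc]; omega)
        rw [Nat.cast_sub h3.le] at h4
        exact h4.le
    refine (Finset.sum_le_sum h1).trans (le_of_eq ?_)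
    rw [← Finset.sum_mul, ← Finset.sum_div]
    congr 1
    have h5 : ∑ k ∈ range (2 * n + 1), ((2 * n).choose k : ℝ) = 4 ^ n := by
      have := Nat.sum_range_choose (2 * n)
      rw [pow_mul] at this
      exact_mod_cast this
    have h6 := Finset.add_sum_erase (range (2 * n + 1)) (fun k => ((2 * n).choose k : ℝ)) hmem
    rw [h5] at h6
    rw [hμ]
    have h7 : (4 : ℝ) ^ n ≠ 0 := by positivity
    field_simp
    linarith
  have hlow : μ * I - (1 - μ) * (μ / 2 * I) ≤
      ∑ i ∈ range I, Real.cos (π * ((b : ℝ) ^ i * x - m)) ^ (2 * n) := by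
    have h1 := congrArg Complex.re hexp
    rw [Complex.ofReal_re, Complex.add_re, Complex.ofReal_re] at h1
    rw [h1]
    have h2 := (abs_le.1 ((Complex.abs_re_le_norm _).trans hrest)).1
    linarith
  have h1 : (I : ℝ) * ρ ^ n ≤ I * (μ / 2) := mul_le_mul_of_nonneg_left hρμ (by positivity)
  have h2 : 0 < μ * (μ / 2 * I) := by positivity
  nlinarith [hlow.trans hup]

end Pool.Agent.Y840.CB
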