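import Pool.Agent.Y840.CB.Mom

/-!
# Counting the fractions with large lacunary sums
-/

set_option autoImplicit false

namespace Pool.Agent.Y840.CB

open Finset Real
open Pool.Agent.W51.CR (e e_add e_zero e_sum e_int cos_eq_e char_sum cos_int_shift)
open scoped Classical

/-- the lacunary exponential sum -/
noncomputable def E (b I : ℕ) (x : ℝ) : ℂ := ∑ i ∈ range I, e ((b : ℝ) ^ i * x)

lemma re_e (t : ℝ) : (e t).re = Real.cos (2 * π * t) := by
  unfold e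
  rw [show (2 : ℂ) * π * t * Complex.I = ((2 * π * t : ℝ) : ℂ) * Complex.I by push_cast; ring,
    Complex.exp_ofReal_mul_I_re]

lemma im_e (t : ℝ) : (e t).im = Real.cos (2 * π * (t + (-1 / 4))) := by
  unfold e
  rw [show (2 : ℂ) * π * t * Complex.I = ((2 * π * t : ℝ) : ℂ) * Complex.I by push_cast; ring,
    Complex.exp_ofReal_mul_I_im]
  rw [show 2 * π * (t + (-1 / 4)) = 2 * π * t - π / 2 by ring, Real.cos_sub_pi_div_two]

lemma norm_E_le (b I : ℕ) (x : ℝ) : ‖E b I x‖ ≤ |S b I 0 x| + |S b I (-1 / 4) x| := by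
  refine (Complex.norm_le_abs_re_add_abs_im _).trans (le_of_eq ?_)
  unfold E S
  rw [Complex.re_sum, Complex.im_sum, Finset.sum_congr rfl (fun i _ => re_e ((b : ℝ) ^ i * x)),
    Finset.sum_congr rfl (fun i _ => im_e ((b : ℝ) ^ i * x))]
  simp

/-- a large sum has a large moment -/
lemma pow_ineq {b I : ℕ} {x η : ℝ} (hη : 0 ≤ η) (k : ℕ) (h : η * I ≤ ‖E b I x‖) :
    (η * I / 2) ^ (2 * k) ≤ S b I 0 x ^ (2 * k) + S b I (-1 / 4) x ^ (2 * k) := by
  have h1 := h.trans (norm_E_le b I x)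
  have hev : Even (2 * k) := even_two_mul k
  have p1 := hev.pow_nonneg (S b I 0 x)
  have p2 := hev.pow_nonneg (S b I (-1 / 4) x)
  have h0 : 0 ≤ η * I / 2 := by positivity
  rcases le_total (η * I / 2) |S b I 0 x| with h2 | h2
  · have h3 := pow_le_pow_left₀ h0 h2 (2 * k)
    rw [hev.pow_abs] at h3
    linarith
  · have h3 : η * I / 2 ≤ |S b I (-1 / 4) x| := by linarith
    have h3 := pow_le_pow_left₀ h0 h3 (2 * k)
    rw [hev.pow_abs] at h3
    linarith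

/-- a large sum for some frequency up to `F` -/
def Bad (b I F : ℕ) (η x : ℝ) : Prop := ∃ f ∈ Icc 1 F, η * I ≤ ‖E b I ((f : ℝ) * x)‖

/-- number of pairs `(p,q)`, `1 ≤ q ≤ M`, `0 ≤ p < q`, with `p/q` bad -/
noncomputable def N (b I F : ℕ) (η : ℝ) (M : ℕ) : ℕ :=
  ∑ q ∈ Icc 1 M, ((range q).filter (fun p : ℕ => Bad b I F η ((p : ℝ) / (q : ℝ)))).card

lemma abs_v_le (b : ℕ) (hb : 1 ≤ b) {I : ℕ} (a : Fin I × Bool) : |v b a| ≤ (b : ℤ) ^ I := by
  unfold v sg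
  have h1 : |(if a.2 = true then (1 : ℤ) else -1)| = 1 := by
    split_ifs <;> simp
  rw [abs_mul, h1, one_mul, abs_of_nonneg (by positivity)]
  exact pow_le_pow_right₀ (by exact_mod_cast hb) a.1.2.le

lemma abs_nn_le (b : ℕ) (hb : 1 ≤ b) {I m : ℕ} (w : Fin m → Fin I × Bool) :
    |nn b w| ≤ m * (b : ℤ) ^ I := by
  unfold nn
  calc |∑ r, v b (w r)| ≤ ∑ r, |v b (w r)| := Finset.abs_sum_le_sum_abs _ _
    _ ≤ ∑ _r : Fin m, (b : ℤ) ^ I := Finset.sum_le_sum (fun r _ => abs_v_le b hb _)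
    _ = m * (b : ℤ) ^ I := by simp

/-- the number of `q ≤ M` dividing a frequency -/
lemma div_count (b M I k f F : ℕ) (hb : 1 ≤ b) (hf : 1 ≤ f) (hfF : f ≤ F) (T : ℝ) (hT0 : 0 ≤ T)
    (hT : ∀ n : ℕ, 1 ≤ n → n ≤ F * (2 * k * b ^ I) → (n.divisors.card : ℝ) ≤ T)
    (w : Fin (2 * k) → Fin I × Bool) :
    (((Icc 1 M).filter (fun q : ℕ => (q : ℤ) ∣ (f : ℤ) * nn b w)).card : ℝ) ≤
      (if nn b w = 0 then (M : ℝ) else 0) + T := by
  by_cases h : nn b w = 0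
  · rw [if_pos h]
    have h1 : ((Icc 1 M).filter (fun q : ℕ => (q : ℤ) ∣ (f : ℤ) * nn b w)).card ≤ M := by
      refine (Finset.card_filter_le _ _).trans ?_
      rw [Nat.card_Icc]; omega
    have h2 : (((Icc 1 M).filter (fun q : ℕ => (q : ℤ) ∣ (f : ℤ) * nn b w)).card : ℝ) ≤ M := by
      exact_mod_cast h1
    linarith
  · rw [if_neg h, zero_add]
    set n : ℕ := ((f : ℤ) * nn b w).natAbs with hn
    have hne : (f : ℤ) * nn b w ≠ 0 := mul_ne_zero (by exact_mod_cast (by omega : f ≠ 0)) h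
    have hn1 : 1 ≤ n := by
      have := Int.natAbs_pos.mpr hne
      omega
    have hn2 : n ≤ F * (2 * k * b ^ I) := by
      have h1 := abs_nn_le b hb w
      have h2 : |(f : ℤ) * nn b w| ≤ F * ((2 * k : ℕ) * (b : ℤ) ^ I) := by
        rw [abs_mul]
        have : |(f : ℤ)| ≤ F := by rw [abs_of_nonneg (by positivity)]; exact_mod_cast hfF
        exact mul_le_mul this h1 (abs_nonneg _) (by positivity)
      have h3 : (n : ℤ) ≤ F * ((2 * k : ℕ) * (b : ℤ) ^ I) := by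
        rw [hn, Int.natCast_natAbs]; exact h2
      exact_mod_cast h3
    refine le_trans ?_ (hT n hn1 hn2)
    have : ((Icc 1 M).filter (fun q : ℕ => (q : ℤ) ∣ (f : ℤ) * nn b w)) ⊆ n.divisors := by
      intro q hq
      rw [mem_filter] at hq
      rw [Nat.mem_divisors]
      refine ⟨?_, by omega⟩
      rw [hn]
      exact Int.natCast_dvd.mp hq.2
    exact_mod_cast Finset.card_le_card this

lemma sum_div_count (b M I k f F : ℕ) (hb : 1 ≤ b) (hf : 1 ≤ f) (hfF : f ≤ F) (T : ℝ) (hT0 : 0 ≤ T)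
    (hT : ∀ n : ℕ, 1 ≤ n → n ≤ F * (2 * k * b ^ I) → (n.divisors.card : ℝ) ≤ T) :
    ∑ q ∈ Icc 1 M,
      ((univ.filter (fun w : Fin (2 * k) → Fin I × Bool => (q : ℤ) ∣ (f : ℤ) * nn b w)).card : ℝ) ≤
      M * (Z b I (2 * k) : ℝ) + (2 * I : ℝ) ^ (2 * k) * T := by
  have h1 : ∑ q ∈ Icc 1 M,
      ((univ.filter (fun w : Fin (2 * k) → Fin I × Bool => (q : ℤ) ∣ (f : ℤ) * nn b w)).card : ℝ) =
      ∑ w : Fin (2 * k) → Fin I × Bool,
        (((Icc 1 M).filter (fun q : ℕ => (q : ℤ) ∣ (f : ℤ) * nn b w)).card : ℝ) := by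
    have e1 : ∀ q : ℕ,
        ((univ.filter (fun w : Fin (2 * k) → Fin I × Bool => (q : ℤ) ∣ (f : ℤ) * nn b w)).card : ℝ) =
        ∑ w : Fin (2 * k) → Fin I × Bool, if (q : ℤ) ∣ (f : ℤ) * nn b w then (1 : ℝ) else 0 := by
      intro q; rw [Finset.card_filter]; push_cast; rfl
    have e2 : ∀ w : Fin (2 * k) → Fin I × Bool,
        (((Icc 1 M).filter (fun q : ℕ => (q : ℤ) ∣ (f : ℤ) * nn b w)).card : ℝ) =
        ∑ q ∈ Icc 1 M, if (q : ℤ) ∣ (f : ℤ) * nn b w then (1 : ℝ) else 0 := by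
      intro w; rw [Finset.card_filter]; push_cast; rfl
    rw [Finset.sum_congr rfl (fun q _ => e1 q), Finset.sum_comm]
    exact (Finset.sum_congr rfl (fun w _ => e2 w)).symm
  rw [h1]
  refine (Finset.sum_le_sum (fun w _ => div_count b M I k f F hb hf hfF T hT0 hT w)).trans ?_
  rw [Finset.sum_add_distrib, ← Finset.sum_filter, Finset.sum_const, Finset.sum_const]
  rw [nsmul_eq_mul, nsmul_eq_mul]
  have h2 : ((univ : Finset (Fin (2 * k) → Fin I × Bool)).card : ℝ) = (2 * I : ℝ) ^ (2 * k) := by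
    rw [Finset.card_univ, Fintype.card_fun, Fintype.card_prod, Fintype.card_fin, Fintype.card_bool,
      Fintype.card_fin]
    push_cast
    ring
  rw [h2]
  unfold Z
  apply le_of_eq
  ring

/-- The counting inequality. -/
lemma count_le (b M I k F : ℕ) (hb : 1 ≤ b) (η : ℝ) (hη : 0 ≤ η) (T : ℝ) (hT0 : 0 ≤ T)
    (hT : ∀ n : ℕ, 1 ≤ n → n ≤ F * (2 * k * b ^ I) → (n.divisors.card : ℝ) ≤ T) :
    (η * I / 2) ^ (2 * k) * (N b I F η M : ℝ) ≤
      2 * F * M * (M * ((1 / 2) ^ (2 * k) * (Z b I (2 * k) : ℝ)) + (I : ℝ) ^ (2 * k) * T) := by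
  have hpos : ∀ s : ℝ, 0 ≤ s ^ (2 * k) := fun s => (even_two_mul k).pow_nonneg s
  -- one term
  have hf : ∀ θ : ℝ, ∀ f ∈ Icc 1 F,
      ∑ q ∈ Icc 1 M, ∑ p ∈ range q, S b I θ ((f : ℝ) * ((p : ℝ) / q)) ^ (2 * k) ≤
        M * (M * ((1 / 2) ^ (2 * k) * (Z b I (2 * k) : ℝ)) + (I : ℝ) ^ (2 * k) * T) := by
    intro θ f hf
    rw [mem_Icc] at hf
    have h1 : ∀ q ∈ Icc 1 M,
        ∑ p ∈ range q, S b I θ ((f : ℝ) * ((p : ℝ) / q)) ^ (2 * k) ≤
          M * (1 / 2) ^ (2 * k) *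
            ((univ.filter (fun w : Fin (2 * k) → Fin I × Bool =>
              (q : ℤ) ∣ (f : ℤ) * nn b w)).card : ℝ) := by
      intro q hq
      rw [mem_Icc] at hq
      refine (moment_le b I (2 * k) q f θ (by omega)).trans ?_
      apply mul_le_mul_of_nonneg_right _ (by positivity)
      apply mul_le_mul_of_nonneg_right _ (by positivity)
      exact_mod_cast hq.2
    refine (Finset.sum_le_sum h1).trans ?_
    rw [← Finset.mul_sum]
    have h2 := sum_div_count b M I k f F hb hf.1 hf.2 T hT0 hT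
    calc _ ≤ M * (1 / 2) ^ (2 * k) *
          (M * (Z b I (2 * k) : ℝ) + (2 * I : ℝ) ^ (2 * k) * T) :=
          mul_le_mul_of_nonneg_left h2 (by positivity)
      _ = _ := by
          have : (1 / 2 : ℝ) ^ (2 * k) * (2 * I : ℝ) ^ (2 * k) = (I : ℝ) ^ (2 * k) := by
            rw [← mul_pow]; congr 1; ring
          rw [← this]; ring
  -- lower bound
  have hlow : (η * I / 2) ^ (2 * k) * (N b I F η M : ℝ) ≤
      ∑ q ∈ Icc 1 M, ∑ p ∈ range q, ∑ f ∈ Icc 1 F,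
        (S b I 0 ((f : ℝ) * ((p : ℝ) / q)) ^ (2 * k) +
          S b I (-1 / 4) ((f : ℝ) * ((p : ℝ) / q)) ^ (2 * k)) := by
    unfold N
    push_cast
    rw [Finset.mul_sum]
    apply Finset.sum_le_sum
    intro q _
    have hc : (((range q).filter (fun p : ℕ => Bad b I F η ((p : ℝ) / (q : ℝ)))).card : ℝ) =
        ∑ p ∈ (range q).filter (fun p : ℕ => Bad b I F η ((p : ℝ) / (q : ℝ))), (1 : ℝ) := by simp
    rw [hc, Finset.mul_sum]
    calc _ ≤ ∑ p ∈ (range q).filter (fun p : ℕ => Bad b I F η ((p : ℝ) / (q : ℝ))),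
          ∑ f ∈ Icc 1 F, (S b I 0 ((f : ℝ) * ((p : ℝ) / q)) ^ (2 * k) +
            S b I (-1 / 4) ((f : ℝ) * ((p : ℝ) / q)) ^ (2 * k)) := by
          apply Finset.sum_le_sum
          intro p hp
          rw [mem_filter] at hp
          rw [mul_one]
          obtain ⟨f, hf1, hf2⟩ := hp.2
          refine (pow_ineq hη k hf2).trans ?_
          exact Finset.single_le_sum (f := fun f : ℕ => S b I 0 ((f : ℝ) * ((p : ℝ) / q)) ^ (2 * k) +
            S b I (-1 / 4) ((f : ℝ) * ((p : ℝ) / q)) ^ (2 * k))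
            (fun f _ => add_nonneg (hpos _) (hpos _)) hf1
      _ ≤ _ := by
          apply Finset.sum_le_sum_of_subset_of_nonneg (Finset.filter_subset _ _)
          intro p _ _
          exact Finset.sum_nonneg (fun f _ => add_nonneg (hpos _) (hpos _))
  refine hlow.trans ?_
  have hsplit : ∑ q ∈ Icc 1 M, ∑ p ∈ range q, ∑ f ∈ Icc 1 F,
        (S b I 0 ((f : ℝ) * ((p : ℝ) / q)) ^ (2 * k) +
          S b I (-1 / 4) ((f : ℝ) * ((p : ℝ) / q)) ^ (2 * k)) =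
      ∑ f ∈ Icc 1 F, (∑ q ∈ Icc 1 M, ∑ p ∈ range q, S b I 0 ((f : ℝ) * ((p : ℝ) / q)) ^ (2 * k) +
        ∑ q ∈ Icc 1 M, ∑ p ∈ range q, S b I (-1 / 4) ((f : ℝ) * ((p : ℝ) / q)) ^ (2 * k)) := by
    have e1 : ∀ q ∈ Icc 1 M, ∑ p ∈ range q, ∑ f ∈ Icc 1 F,
        (S b I 0 ((f : ℝ) * ((p : ℝ) / q)) ^ (2 * k) +
          S b I (-1 / 4) ((f : ℝ) * ((p : ℝ) / q)) ^ (2 * k)) =
        ∑ f ∈ Icc 1 F, ∑ p ∈ range q, (S b I 0 ((f : ℝ) * ((p : ℝ) / q)) ^ (2 * k) +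
          S b I (-1 / 4) ((f : ℝ) * ((p : ℝ) / q)) ^ (2 * k)) := fun q _ => Finset.sum_comm
    rw [Finset.sum_congr rfl e1, Finset.sum_comm]
    apply Finset.sum_congr rfl
    intro f _
    simp only [Finset.sum_add_distrib]
  rw [hsplit]
  refine (Finset.sum_le_sum (fun f hf' => add_le_add (hf 0 f hf') (hf (-1 / 4) f hf'))).trans ?_
  rw [Finset.sum_const, Nat.card_Icc, nsmul_eq_mul]
  simp only [Nat.add_sub_cancel]
  apply le_of_eq
  ring

/-- The counting inequality with the parameters `I = β k`. -/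
theorem main_bound (b M β k F : ℕ) (hb : 2 ≤ b) (hβ : 1 ≤ β) (hk : 1 ≤ k) (η : ℝ) (hη : 0 < η)
    (T : ℝ) (hT0 : 0 ≤ T)
    (hT : ∀ n : ℕ, 1 ≤ n → n ≤ F * (2 * k * b ^ (β * k)) → (n.divisors.card : ℝ) ≤ T) :
    (N b (β * k) F η M : ℝ) ≤ 2 * F * M * (4 / η ^ 2) ^ k * (2 * M * (2 * Real.exp 1 / β) ^ k + T) := by
  set I := β * k with hI
  have hkpos : (0 : ℝ) < k := by exact_mod_cast hk
  have hβpos : (0 : ℝ) < β := by exact_mod_cast hβ
  have hIpos : (0 : ℝ) < (I : ℝ) := by rw [hI]; push_cast; positivity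
  have h1 := count_le b M I k F (by omega) η hη.le T hT0 hT
  -- zero frequency
  have hZ : (1 / 2 : ℝ) ^ (2 * k) * (Z b I (2 * k) : ℝ) ≤
      (I : ℝ) ^ (2 * k) * (2 * (2 * Real.exp 1 / β) ^ k) := by
    set t : ℝ := Real.sqrt (2 / β) with ht
    have htpos : 0 < t := Real.sqrt_pos.mpr (by positivity)
    have ht2 : t ^ 2 = 2 / β := Real.sq_sqrt (by positivity)
    have h2 := Z_le b hb I k t htpos
    refine h2.trans ?_
    have e1 : t ^ (2 * k) = (2 / β : ℝ) ^ k := by rw [pow_mul, ht2]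
    have e2 : Real.exp ((I : ℝ) * (t ^ 2 / 2)) = Real.exp 1 ^ k := by
      rw [ht2, ← Real.exp_nat_mul]
      congr 1
      rw [hI]; push_cast; field_simp
    have e3 : ((2 * k).factorial : ℝ) ≤ (2 * k : ℝ) ^ (2 * k) := by
      exact_mod_cast Nat.factorial_le_pow (2 * k)
    rw [e1, e2]
    have e4 : (I : ℝ) = β * k := by rw [hI]; push_cast; ring
    calc 2 * ((2 * k).factorial : ℝ) / (2 / β : ℝ) ^ k * Real.exp 1 ^ k
        ≤ 2 * (2 * k : ℝ) ^ (2 * k) / (2 / β : ℝ) ^ k * Real.exp 1 ^ k := by gcongr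
      _ = (I : ℝ) ^ (2 * k) * (2 * (2 * Real.exp 1 / β) ^ k) := by
          rw [e4]
          rw [pow_mul, pow_mul, div_pow, div_pow, mul_pow (2 : ℝ) (Real.exp 1) k]
          have e5 : ((2 * (k : ℝ)) ^ 2) ^ k = 4 ^ k * ((k : ℝ) ^ 2) ^ k := by
            rw [← mul_pow]; congr 1; ring
          have e6 : (((β : ℝ) * k) ^ 2) ^ k = (β : ℝ) ^ k * (β : ℝ) ^ k * ((k : ℝ) ^ 2) ^ k := by
            rw [← mul_pow, ← mul_pow]; congr 1; ring
          have e7 : (4 : ℝ) ^ k = 2 ^ k * 2 ^ k := by rw [← mul_pow]; norm_num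
          rw [e5, e6, e7]
          have b1 : (β : ℝ) ^ k ≠ 0 := by positivity
          have b2 : (2 : ℝ) ^ k ≠ 0 := by positivity
          field_simp
  have hI2 : (0 : ℝ) < (I : ℝ) ^ (2 * k) := by positivity
  have h3 : (η * I / 2) ^ (2 * k) * (N b I F η M : ℝ) ≤
      (I : ℝ) ^ (2 * k) * (2 * F * M * (2 * M * (2 * Real.exp 1 / β) ^ k + T)) := by
    refine h1.trans ?_
    have := mul_le_mul_of_nonneg_left hZ (by positivity : (0:ℝ) ≤ 2 * F * M * M)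
    nlinarith [this]
  have h4 : (η * I / 2) ^ (2 * k) = (I : ℝ) ^ (2 * k) / (4 / η ^ 2) ^ k := by
    have e8 : (4 / η ^ 2 : ℝ) ^ k = ((2 / η) ^ 2) ^ k := by
      congr 1
      field_simp
      norm_num
    rw [e8, ← pow_mul, ← div_pow]
    congr 1
    field_simp
  rw [h4] at h3
  have hG : 0 < (4 / η ^ 2 : ℝ) ^ k := by positivity
  have h5 : (N b I F η M : ℝ) / (4 / η ^ 2) ^ k ≤ 2 * F * M * (2 * M * (2 * Real.exp 1 / β) ^ k + T) := by
    have h6 : (I : ℝ) ^ (2 * k) * ((N b I F η M : ℝ) / (4 / η ^ 2) ^ k) ≤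
        (I : ℝ) ^ (2 * k) * (2 * F * M * (2 * M * (2 * Real.exp 1 / β) ^ k + T)) := by
      refine le_trans (le_of_eq ?_) h3
      ring
    exact le_of_mul_le_mul_left h6 hI2
  rw [div_le_iff₀ hG] at h5
  linarith

end Pool.Agent.Y840.CB
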