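import Pool.Agent.W51.CR.Moment

/-!
# Moments of lacunary sums in an arbitrary base over the rationals with a given denominator

The method is the one of `Pool.Agent.W51.CR` (base three), in an arbitrary base and with phases.
-/

set_option autoImplicit false

namespace Pool.Agent.Y840.CB

open Finset Real
open Pool.Agent.W51.CR (e e_add e_zero e_sum e_int cos_eq_e char_sum cos_int_shift)

/-- the lacunary sum with a phase -/
noncomputable def S (b I : ℕ) (θ x : ℝ) : ℝ := ∑ i ∈ range I, Real.cos (2 * π * ((b : ℝ) ^ i * x + θ))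

/-- the sign -/
def sg {I : ℕ} (a : Fin I × Bool) : ℤ := if a.2 then 1 else -1

/-- signed power of `b` attached to a pair (exponent, sign) -/
def v (b : ℕ) {I : ℕ} (a : Fin I × Bool) : ℤ := sg a * (b : ℤ) ^ (a.1 : ℕ)

/-- the frequency attached to a word -/
def nn (b : ℕ) {I m : ℕ} (w : Fin m → Fin I × Bool) : ℤ := ∑ r, v b (w r)

/-- the multiple of the phase attached to a word -/
def ph {I m : ℕ} (w : Fin m → Fin I × Bool) : ℤ := ∑ r, sg (w r)

lemma S_eq (b I : ℕ) (θ x : ℝ) :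
    ((S b I θ x : ℝ) : ℂ) = (1 / 2) * ∑ a : Fin I × Bool, e ((v b a : ℝ) * x + (sg a : ℝ) * θ) := by
  unfold S
  push_cast
  rw [Fintype.sum_prod_type, Finset.sum_range, Finset.mul_sum]
  apply Finset.sum_congr rfl
  intro i _
  have h := cos_eq_e ((b : ℝ) ^ (i : ℕ) * x + θ)
  push_cast at h
  rw [h]
  rw [Fintype.sum_bool]
  unfold v sg
  push_cast
  simp only [if_true]
  have h1 : (1 : ℝ) * (b : ℝ) ^ (i : ℕ) * x + 1 * θ = (b : ℝ) ^ (i : ℕ) * x + θ := by ring
  have h3 : (-1 : ℝ) * (b : ℝ) ^ (i : ℕ) * x + (-1) * θ = - ((b : ℝ) ^ (i : ℕ) * x + θ) := by ring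
  have h4 : (if false = true then (1 : ℝ) else -1) = -1 := by simp
  rw [h1, h3]
  ring

lemma S_pow (b I m : ℕ) (θ x : ℝ) :
    ((S b I θ x ^ m : ℝ) : ℂ) =
      (1 / 2) ^ m * ∑ w : Fin m → Fin I × Bool, e ((nn b w : ℝ) * x) * e ((ph w : ℝ) * θ) := by
  push_cast
  rw [S_eq, mul_pow]
  congr 1
  rw [Fintype.sum_pow]
  apply Finset.sum_congr rfl
  intro w _
  rw [← e_sum, ← e_add]
  congr 1
  unfold nn ph
  push_cast
  rw [Finset.sum_add_distrib, Finset.sum_mul, Finset.sum_mul]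

/-- **Moment identity.** -/
lemma moment (b I m q f : ℕ) (θ : ℝ) (hq : 0 < q) :
    ((∑ p ∈ range q, S b I θ ((f : ℝ) * ((p : ℝ) / q)) ^ m : ℝ) : ℂ) =
      (q : ℂ) * (1 / 2) ^ m *
        ∑ w ∈ univ.filter (fun w : Fin m → Fin I × Bool => (q : ℤ) ∣ (f : ℤ) * nn b w),
          e ((ph w : ℝ) * θ) := by
  rw [Complex.ofReal_sum]
  rw [Finset.sum_congr rfl (fun (p : ℕ) _ => S_pow b I m θ ((f : ℝ) * ((p : ℝ) / q)))]
  rw [← Finset.mul_sum, Finset.sum_comm]
  have : ∀ w ∈ (univ : Finset (Fin m → Fin I × Bool)),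
      ∑ p ∈ range q, e ((nn b w : ℝ) * ((f : ℝ) * ((p : ℝ) / q))) * e ((ph w : ℝ) * θ) =
        if (q : ℤ) ∣ (f : ℤ) * nn b w then (q : ℂ) * e ((ph w : ℝ) * θ) else 0 := by
    intro w _
    rw [← Finset.sum_mul]
    have h1 : ∑ p ∈ range q, e ((nn b w : ℝ) * ((f : ℝ) * ((p : ℝ) / q))) =
        if (q : ℤ) ∣ (f : ℤ) * nn b w then (q : ℂ) else 0 := by
      rw [← char_sum q hq]
      apply Finset.sum_congr rfl
      intro p _
      congr 1
      push_cast
      ring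
    rw [h1]
    split_ifs <;> simp
  rw [Finset.sum_congr rfl this, ← Finset.sum_filter, ← Finset.mul_sum]
  ring

lemma norm_e (t : ℝ) : ‖e t‖ = 1 := by
  unfold e
  rw [show (2 : ℂ) * π * t * Complex.I = ((2 * π * t : ℝ) : ℂ) * Complex.I by push_cast; ring]
  exact Complex.norm_exp_ofReal_mul_I _

lemma moment_le (b I m q f : ℕ) (θ : ℝ) (hq : 0 < q) :
    ∑ p ∈ range q, S b I θ ((f : ℝ) * ((p : ℝ) / q)) ^ m ≤
      (q : ℝ) * (1 / 2) ^ m *
        ((univ.filter (fun w : Fin m → Fin I × Bool => (q : ℤ) ∣ (f : ℤ) * nn b w)).card : ℝ) := by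
  have h := congrArg norm (moment b I m q f θ hq)
  rw [Complex.norm_real, norm_mul, norm_mul, Complex.norm_natCast, norm_pow] at h
  have h2 : ‖∑ w ∈ univ.filter (fun w : Fin m → Fin I × Bool => (q : ℤ) ∣ (f : ℤ) * nn b w),
      e ((ph w : ℝ) * θ)‖ ≤
      ((univ.filter (fun w : Fin m → Fin I × Bool => (q : ℤ) ∣ (f : ℤ) * nn b w)).card : ℝ) := by
    refine (norm_sum_le _ _).trans ?_
    rw [Finset.sum_congr rfl (fun w _ => norm_e _)]
    simp
  have h3 : ‖(1 / 2 : ℂ)‖ = 1 / 2 := by norm_num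
  rw [h3] at h
  calc _ ≤ ‖∑ p ∈ range q, S b I θ ((f : ℝ) * ((p : ℝ) / q)) ^ m‖ := Real.le_norm_self _
    _ = _ := h
    _ ≤ _ := mul_le_mul_of_nonneg_left h2 (by positivity)

lemma sum_cos_shift (b : ℕ) (hb : 2 ≤ b) (y : ℝ) :
    ∑ s ∈ range b, Real.cos (2 * π * (y + (s : ℝ) / b)) = 0 := by
  have h1 : ∑ s ∈ range b, e (y + (s : ℝ) / b) = 0 := by
    have h2 := char_sum b (by omega) 1
    rw [if_neg (by
      intro h
      have := Int.le_of_dvd (by norm_num) h
      omega)] at h2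
    have h3 : ∀ s ∈ range b, e (y + (s : ℝ) / b) = e y * e (((1 : ℤ) : ℝ) * ((s : ℝ) / b)) := by
      intro s _
      rw [e_add]
      simp
    rw [Finset.sum_congr rfl h3, ← Finset.mul_sum, h2, mul_zero]
  have h4 : ∑ s ∈ range b, e (-(y + (s : ℝ) / b)) = 0 := by
    have h2 := char_sum b (by omega) (-1)
    rw [if_neg (by
      intro h
      have h' : (b : ℤ) ∣ 1 := by
        rw [← dvd_neg]
        exact h
      have := Int.le_of_dvd (by norm_num) h'
      omega)] at h2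
    have h3 : ∀ s ∈ range b, e (-(y + (s : ℝ) / b)) = e (-y) * e (((-1 : ℤ) : ℝ) * ((s : ℝ) / b)) := by
      intro s _
      rw [← e_add]
      congr 1
      push_cast
      ring
    rw [Finset.sum_congr rfl h3, ← Finset.mul_sum, h2, mul_zero]
  have h5 : ((∑ s ∈ range b, Real.cos (2 * π * (y + (s : ℝ) / b)) : ℝ) : ℂ) = ((0 : ℝ) : ℂ) := by
    rw [Complex.ofReal_sum]
    have h6 : ∀ s ∈ range b, ((Real.cos (2 * π * (y + (s : ℝ) / b)) : ℝ) : ℂ) =
        (e (y + (s : ℝ) / b) + e (-(y + (s : ℝ) / b))) / 2 := fun s _ => cos_eq_e _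
    rw [Finset.sum_congr rfl h6, ← Finset.sum_div, Finset.sum_add_distrib, h1, h4]
    simp
  exact Complex.ofReal_injective h5

lemma sum_range_mul (n r : ℕ) (g : ℕ → ℝ) :
    ∑ u ∈ range (n * r), g u = ∑ s ∈ range r, ∑ u ∈ range n, g (n * s + u) := by
  induction r with
  | zero => simp
  | succ r ih => rw [Nat.mul_succ, Finset.sum_range_add, ih, Finset.sum_range_succ]

/-- **Riesz product average.** -/
lemma riesz (b : ℕ) (hb : 2 ≤ b) (a c : ℝ) (I : ℕ) :
    ∑ u ∈ range (b ^ I), ∏ i ∈ range I,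
      (a + c * Real.cos (2 * π * ((b : ℝ) ^ i * ((u : ℝ) / (b : ℝ) ^ I)))) = (b : ℝ) ^ I * a ^ I := by
  have hb0 : (b : ℝ) ≠ 0 := by positivity
  induction I with
  | zero => simp
  | succ I ih =>
    set G : ℕ → ℝ := fun u =>
      ∏ i ∈ range I, (a + c * Real.cos (2 * π * ((b : ℝ) ^ i * ((u : ℝ) / (b : ℝ) ^ I)))) with hG
    have hper : ∀ u w : ℕ, G (b ^ I * w + u) = G u := by
      intro u w
      simp only [hG]
      apply Finset.prod_congr rfl
      intro i _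
      have : (b : ℝ) ^ i * (((b ^ I * w + u : ℕ) : ℝ) / (b : ℝ) ^ I) =
          (b : ℝ) ^ i * ((u : ℝ) / (b : ℝ) ^ I) + (((b ^ i * w : ℕ) : ℤ) : ℝ) := by
        push_cast
        field_simp
        ring
      rw [this, cos_int_shift]
    have hfac : ∀ u : ℕ, ∏ i ∈ range (I + 1),
        (a + c * Real.cos (2 * π * ((b : ℝ) ^ i * ((u : ℝ) / (b : ℝ) ^ (I + 1))))) =
        G u * (a + c * Real.cos (2 * π * ((u : ℝ) / (b : ℝ) ^ (I + 1)))) := by
      intro u
      rw [Finset.prod_range_succ']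
      simp only [hG, pow_zero, one_mul]
      congr 1
      apply Finset.prod_congr rfl
      intro i _
      have : (b : ℝ) ^ (i + 1) * ((u : ℝ) / (b : ℝ) ^ (I + 1)) = (b : ℝ) ^ i * ((u : ℝ) / (b : ℝ) ^ I) := by
        field_simp
        ring
      rw [this]
    rw [Finset.sum_congr rfl (fun u _ => hfac u), pow_succ, sum_range_mul, Finset.sum_comm]
    have hterm : ∀ u ∈ range (b ^ I), ∑ s ∈ range b, G (b ^ I * s + u) *
        (a + c * Real.cos (2 * π * (((b ^ I * s + u : ℕ) : ℝ) / (b : ℝ) ^ (I + 1)))) =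
        b * a * G u := by
      intro u _
      have h1 : ∀ s ∈ range b, G (b ^ I * s + u) *
          (a + c * Real.cos (2 * π * (((b ^ I * s + u : ℕ) : ℝ) / (b : ℝ) ^ (I + 1)))) =
          G u * a + G u * c * Real.cos (2 * π * ((u : ℝ) / (b : ℝ) ^ (I + 1) + (s : ℝ) / b)) := by
        intro s _
        rw [hper]
        have : ((b ^ I * s + u : ℕ) : ℝ) / (b : ℝ) ^ (I + 1) = (u : ℝ) / (b : ℝ) ^ (I + 1) + (s : ℝ) / b := by
          push_cast
          field_simp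
          ring
        rw [this]
        ring
      rw [Finset.sum_congr rfl h1, Finset.sum_add_distrib, Finset.sum_const, ← Finset.mul_sum,
        sum_cos_shift b hb, card_range, nsmul_eq_mul]
      ring
    rw [Finset.sum_congr rfl hterm, ← Finset.mul_sum, ih]
    ring

/-- exponential moment bound -/
lemma exp_moment (b : ℕ) (hb : 2 ≤ b) (I : ℕ) (t : ℝ) :
    ∑ u ∈ range (b ^ I), Real.exp (t * S b I 0 ((u : ℝ) / (b : ℝ) ^ I)) ≤
      (b : ℝ) ^ I * Real.exp (I * (t ^ 2 / 2)) := by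
  calc ∑ u ∈ range (b ^ I), Real.exp (t * S b I 0 ((u : ℝ) / (b : ℝ) ^ I))
      ≤ ∑ u ∈ range (b ^ I), ∏ i ∈ range I,
          (Real.cosh t + Real.sinh t * Real.cos (2 * π * ((b : ℝ) ^ i * ((u : ℝ) / (b : ℝ) ^ I)))) := by
        apply Finset.sum_le_sum
        intro u _
        unfold S
        rw [Finset.mul_sum, Real.exp_sum]
        apply Finset.prod_le_prod
        · intro i _; positivity
        · intro i _
          rw [add_zero]
          have := Real.exp_mul_le_cosh_add_mul_sinh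
            (Real.abs_cos_le_one (2 * π * ((b : ℝ) ^ i * ((u : ℝ) / (b : ℝ) ^ I)))) t
          rw [mul_comm t, mul_comm (Real.sinh t)]
          exact this
    _ = (b : ℝ) ^ I * Real.cosh t ^ I := riesz b hb _ _ I
    _ ≤ (b : ℝ) ^ I * Real.exp (I * (t ^ 2 / 2)) := by
        apply mul_le_mul_of_nonneg_left _ (by positivity)
        rw [Real.exp_nat_mul]
        exact pow_le_pow_left₀ (Real.cosh_pos t).le (Real.cosh_le_exp_half_sq t) _

/-- power moment bound -/
lemma pow_moment (b : ℕ) (hb : 2 ≤ b) (I k : ℕ) (t : ℝ) (ht : 0 < t) :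
    ∑ u ∈ range (b ^ I), S b I 0 ((u : ℝ) / (b : ℝ) ^ I) ^ (2 * k) ≤
      (b : ℝ) ^ I * (2 * ((2 * k).factorial : ℝ) / t ^ (2 * k) * Real.exp (I * (t ^ 2 / 2))) := by
  have hterm : ∀ u ∈ range (b ^ I), S b I 0 ((u : ℝ) / (b : ℝ) ^ I) ^ (2 * k) ≤
      ((2 * k).factorial : ℝ) / t ^ (2 * k) *
        (Real.exp (t * S b I 0 ((u : ℝ) / (b : ℝ) ^ I)) +
          Real.exp ((-t) * S b I 0 ((u : ℝ) / (b : ℝ) ^ I))) := by
    intro u _
    set s := S b I 0 ((u : ℝ) / (b : ℝ) ^ I) with hs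
    have h1 := Real.pow_div_factorial_le_exp (|t * s|) (abs_nonneg _) (2 * k)
    rw [(even_two_mul k).pow_abs, mul_pow] at h1
    have h2 : Real.exp |t * s| ≤ Real.exp (t * s) + Real.exp ((-t) * s) := by
      rcases abs_cases (t * s) with h | h
      · rw [h.1]; have := Real.exp_pos ((-t) * s); linarith
      · rw [h.1, neg_mul]; have := Real.exp_pos (t * s); linarith
    have h3 := h1.trans h2
    have hf : (0 : ℝ) < ((2 * k).factorial : ℝ) := by exact_mod_cast Nat.factorial_pos _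
    have ht2 : 0 < t ^ (2 * k) := by positivity
    rw [div_le_iff₀ hf] at h3
    rw [div_mul_eq_mul_div, le_div_iff₀ ht2]
    linarith
  refine (Finset.sum_le_sum hterm).trans ?_
  rw [← Finset.mul_sum, Finset.sum_add_distrib]
  have e1 := exp_moment b hb I t
  have e2 := exp_moment b hb I (-t)
  rw [neg_sq] at e2
  have hc : 0 ≤ ((2 * k).factorial : ℝ) / t ^ (2 * k) := by positivity
  calc _ ≤ ((2 * k).factorial : ℝ) / t ^ (2 * k) *
        ((b : ℝ) ^ I * Real.exp (I * (t ^ 2 / 2)) + (b : ℝ) ^ I * Real.exp (I * (t ^ 2 / 2))) :=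
        mul_le_mul_of_nonneg_left (add_le_add e1 e2) hc
    _ = _ := by ring

/-- number of words with zero frequency -/
noncomputable def Z (b I m : ℕ) : ℕ :=
  (univ.filter (fun w : Fin m → Fin I × Bool => nn b w = 0)).card

lemma Z_le (b : ℕ) (hb : 2 ≤ b) (I k : ℕ) (t : ℝ) (ht : 0 < t) :
    (1 / 2 : ℝ) ^ (2 * k) * (Z b I (2 * k) : ℝ) ≤
      2 * ((2 * k).factorial : ℝ) / t ^ (2 * k) * Real.exp (I * (t ^ 2 / 2)) := by
  have h1 := pow_moment b hb I k t ht
  have h2 : ∑ p ∈ range (b ^ I), S b I 0 (((1 : ℕ) : ℝ) * ((p : ℝ) / ((b ^ I : ℕ) : ℝ))) ^ (2 * k) =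
      ((b ^ I : ℕ) : ℝ) * (1 / 2) ^ (2 * k) *
        ((univ.filter (fun w : Fin (2 * k) → Fin I × Bool =>
          ((b ^ I : ℕ) : ℤ) ∣ ((1 : ℕ) : ℤ) * nn b w)).card : ℝ) := by
    have h3 := moment b I (2 * k) (b ^ I) 1 0 (by positivity)
    simp only [mul_zero, e_zero, Finset.sum_const, nsmul_eq_mul, mul_one] at h3
    apply Complex.ofReal_injective
    rw [h3]
    push_cast
    ring
  have h3 : (Z b I (2 * k) : ℝ) ≤ ((univ.filter (fun w : Fin (2 * k) → Fin I × Bool =>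
      ((b ^ I : ℕ) : ℤ) ∣ ((1 : ℕ) : ℤ) * nn b w)).card : ℝ) := by
    unfold Z
    norm_cast
    apply Finset.card_le_card
    intro w hw
    rw [mem_filter] at hw ⊢
    refine ⟨hw.1, ?_⟩
    rw [hw.2]; simp
  have h4 : ∑ p ∈ range (b ^ I), S b I 0 (((1 : ℕ) : ℝ) * ((p : ℝ) / ((b ^ I : ℕ) : ℝ))) ^ (2 * k) =
      ∑ u ∈ range (b ^ I), S b I 0 ((u : ℝ) / (b : ℝ) ^ I) ^ (2 * k) := by
    apply Finset.sum_congr rfl
    intro u _
    push_cast
    rw [one_mul]
  rw [h4] at h2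
  rw [h2] at h1
  have h5 : (0 : ℝ) < (b : ℝ) ^ I := by positivity
  push_cast at h1
  have h6 : (b : ℝ) ^ I * ((1 / 2 : ℝ) ^ (2 * k) * (Z b I (2 * k) : ℝ)) ≤
      (b : ℝ) ^ I * (2 * ((2 * k).factorial : ℝ) / t ^ (2 * k) * Real.exp (I * (t ^ 2 / 2))) := by
    refine le_trans ?_ h1
    rw [mul_assoc]
    apply mul_le_mul_of_nonneg_left _ h5.le
    apply mul_le_mul_of_nonneg_left _ (by positivity)
    push_cast at h3
    exact h3
  exact le_of_mul_le_mul_left h6 h5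

end Pool.Agent.Y840.CB
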